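import Pool.Agent.N278.RO.WFlag
import Pool.Agent.N520.RO.Stm4a

/-!
# Project RO2, task THREE: elements which fix three plates are bounded
-/

set_option autoImplicit false

open Filter Topology

namespace Pool.Agent.N413.RO.Three

open Pool.Agent.N520.RO
open Pool.Agent.N278.RO (T_zero T_neg P_form coord_T bound entries)

section rep

variable {G : Type} [Group G] [TopologicalSpace G] [IsTopologicalGroup G] {K : Set G}
  {P : Subgroup G} {T : ℝ → G} {w : G}
  {E : Type} [NormedAddCommGroup E] [NormedSpace ℝ E] [FiniteDimensional ℝ E]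
  {ρ : G →* (E ≃ₗ[ℝ] E)} {ι : Type} [Fintype ι]
  (b : Module.Basis ι ℝ E) (c : ι → ℝ)

/-- the weight space of a set of weights -/
def EA (A : Set ℝ) : Submodule ℝ E where
  carrier := {v | ∀ i, c i ∉ A → b.coord i v = 0}
  add_mem' {x y} hx hy i hi := by rw [map_add, hx i hi, hy i hi, add_zero]
  zero_mem' i _ := map_zero _
  smul_mem' a x hx i hi := by rw [map_smul, hx i hi, smul_zero]

omit [FiniteDimensional ℝ E] in
theorem expand (f : E →ₗ[ℝ] E) (v : E) (j : ι) : b.coord j (f v) =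
    ∑ l, b.coord l v * b.coord j (f (b l)) := by
  conv_lhs => rw [← b.sum_repr v]
  rw [map_sum, map_sum]
  refine Finset.sum_congr rfl fun l _ => ?_
  simp only [map_smul, smul_eq_mul, Module.Basis.coord_apply]

omit [FiniteDimensional ℝ E] in
theorem map_EA (f : E →ₗ[ℝ] E) {A B : Set ℝ}
    (hf : ∀ i j, c j ∈ A → c i ∉ B → b.coord i (f (b j)) = 0) {v : E} (hv : v ∈ EA b c A) :
    f v ∈ EA b c B := by
  intro i hi
  rw [expand b]
  refine Finset.sum_eq_zero fun l _ => ?_
  by_cases h : c l ∈ A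
  · rw [hf i l h hi, mul_zero]
  · rw [hv l h, zero_mul]

/-- the entries of `w` -/
theorem weyl_entries (h : RankOne K P T w) (hρ : ∀ v : E, Continuous fun g : G => ρ g v)
    (hc : ∀ (j : ι) (t : ℝ), ρ (T t) (b j) = Real.exp (c j * t) • b j) :
    (∀ i j : ι, 0 < c i + c j → b.coord i (ρ w (b j)) = 0) ∧
      ∀ i j : ι, c i + c j < 0 → b.coord i (ρ w⁻¹ (b j)) = 0 := by
  obtain ⟨N, hN0, hN⟩ := bound b h.compact hρ
  constructor
  · intro i j hij
    have e1 : ∀ᶠ t : ℝ in atTop, |b.coord i (ρ w (b j))| ≤ N * Real.exp (-(c i + c j) * t) := by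
      filter_upwards [h.weyl] with t ht
      have e2 : w = T (-t) * ((T t * w * T t) * T (-t)) := by
        rw [T_neg h]
        group
      have e3 : b.coord i (ρ w (b j)) = Real.exp (-(c i + c j) * t) *
          b.coord i (ρ (T t * w * T t) (b j)) := by
        conv_lhs => rw [e2]
        rw [map_mul, map_mul _ (T t * w * T t), LinearEquiv.mul_apply, LinearEquiv.mul_apply,
          coord_T b c hc, hc, map_smul, map_smul, smul_eq_mul]
        rw [show -(c i + c j) * t = c i * -t + c j * -t by ring, Real.exp_add]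
        ring
      rw [e3, abs_mul, abs_of_pos (Real.exp_pos _), mul_comm]
      exact mul_le_mul_of_nonneg_right (hN _ ht i j).1 (Real.exp_pos _).le
    have h3 : Tendsto (fun t : ℝ => N * Real.exp (-(c i + c j) * t)) atTop (𝓝 (N * 0)) := by
      apply Tendsto.const_mul
      apply Real.tendsto_exp_atBot.comp
      exact tendsto_id.const_mul_atTop_of_neg (by linarith)
    rw [mul_zero] at h3
    exact abs_nonpos_iff.1 (ge_of_tendsto h3 e1)
  · intro i j hij
    have e1 : ∀ᶠ t : ℝ in atTop, |b.coord i (ρ w⁻¹ (b j))| ≤ N * Real.exp ((c i + c j) * t) := by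
      filter_upwards [h.weyl] with t ht
      have e2 : w⁻¹ = T t * ((T t * w * T t)⁻¹ * T t) := by
        group
      have e3 : b.coord i (ρ w⁻¹ (b j)) = Real.exp ((c i + c j) * t) *
          b.coord i (ρ (T t * w * T t)⁻¹ (b j)) := by
        conv_lhs => rw [e2]
        rw [map_mul, map_mul _ (T t * w * T t)⁻¹, LinearEquiv.mul_apply, LinearEquiv.mul_apply,
          coord_T b c hc, hc, map_smul, map_smul, smul_eq_mul]
        rw [show (c i + c j) * t = c i * t + c j * t by ring, Real.exp_add]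
        ring
      rw [e3, abs_mul, abs_of_pos (Real.exp_pos _), mul_comm]
      exact mul_le_mul_of_nonneg_right (hN _ ht i j).2 (Real.exp_pos _).le
    have h3 : Tendsto (fun t : ℝ => N * Real.exp ((c i + c j) * t)) atTop (𝓝 (N * 0)) := by
      apply Tendsto.const_mul
      apply Real.tendsto_exp_atBot.comp
      exact tendsto_id.const_mul_atTop_of_neg (by linarith)
    rw [mul_zero] at h3
    exact abs_nonpos_iff.1 (ge_of_tendsto h3 e1)

omit [FiniteDimensional ℝ E] in
/-- vectors of a subspace without vectors of negative weights -/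
theorem control [FiniteDimensional ℝ E] (R : Submodule ℝ E)
    (hR : ∀ x ∈ R, x ∈ EA b c (Set.Iio 0) → x = 0) :
    ∃ D : ℝ, 0 ≤ D ∧ ∀ x ∈ R, ∀ i, |b.coord i x| ≤ D * ∑ j, if 0 ≤ c j then |b.coord j x| else 0 := by
  classical
  let f : R →ₗ[ℝ] (ι → ℝ) :=
    (LinearMap.pi fun j => if 0 ≤ c j then b.coord j else 0).comp R.subtype
  have f_apply : ∀ (x : R) (j : ι), f x j = if 0 ≤ c j then b.coord j x else 0 := by
    intro x j
    show (if 0 ≤ c j then b.coord j else 0) (x : E) = _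
    split_ifs <;> rfl
  have hker : f.ker = ⊥ := by
    rw [LinearMap.ker_eq_bot']
    intro x hx
    apply Subtype.ext
    apply hR x x.2
    intro i hi
    have h1 := congrFun hx i
    rw [f_apply, if_pos (not_lt.1 hi)] at h1
    exact h1
  obtain ⟨D, -, hD⟩ := f.exists_antilipschitzWith hker
  set X : ℝ := ∑ l, ‖LinearMap.toContinuousLinearMap (b.coord l)‖ with hX
  refine ⟨X * D, by positivity, fun x hx i => ?_⟩
  have h1 : |b.coord i x| ≤ ‖LinearMap.toContinuousLinearMap (b.coord i)‖ * ‖x‖ :=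
    (LinearMap.toContinuousLinearMap (b.coord i)).le_opNorm x
  have h2 : ‖LinearMap.toContinuousLinearMap (b.coord i)‖ ≤ X :=
    Finset.single_le_sum (f := fun l => ‖LinearMap.toContinuousLinearMap (b.coord l)‖)
      (fun _ _ => norm_nonneg _) (Finset.mem_univ i)
  have h3 : ‖x‖ ≤ D * ‖f ⟨x, hx⟩‖ := hD.le_mul_norm (map_zero f) ⟨x, hx⟩
  have h4 : ‖f ⟨x, hx⟩‖ ≤ ∑ j, if 0 ≤ c j then |b.coord j x| else 0 := by
    have h5 : ∀ j, 0 ≤ (if 0 ≤ c j then |b.coord j x| else 0) := by
      intro j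
      split_ifs
      · exact abs_nonneg _
      · exact le_rfl
    refine (pi_norm_le_iff_of_nonneg (Finset.sum_nonneg fun j _ => h5 j)).2 fun j => ?_
    refine le_trans ?_ (Finset.single_le_sum (f := fun j => if 0 ≤ c j then |b.coord j x| else 0)
      (fun j _ => h5 j) (Finset.mem_univ j))
    rw [f_apply]
    show _ ≤ if 0 ≤ c j then |b.coord j x| else 0
    split_ifs
    · exact le_rfl
    · exact norm_zero.le
  calc |b.coord i x| ≤ X * ‖x‖ := h1.trans (mul_le_mul_of_nonneg_right h2 (norm_nonneg _))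
    _ ≤ X * (D * ∑ j, if 0 ≤ c j then |b.coord j x| else 0) :=
        mul_le_mul_of_nonneg_left (h3.trans (mul_le_mul_of_nonneg_left h4 D.2)) (by positivity)
    _ = _ := by ring

/-- the elements which fix three plates in general position -/
theorem key (h : RankOne K P T w) (hρ : ∀ v : E, Continuous fun g : G => ρ g v)
    (hc : ∀ (j : ι) (t : ℝ), ρ (T t) (b j) = Real.exp (c j * t) • b j) {u : G} (hu : u ∉ P)
    (hu' : w⁻¹ * u ∉ P) :
    ∃ C : ℝ, 0 ≤ C ∧ ∀ g ∈ P, w⁻¹ * g * w ∈ P → u⁻¹ * g * u ∈ P → ∀ i j : ι,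
      |b.coord i (ρ g (b j))| ≤ C := by
  classical
  obtain ⟨N, hN0, hN⟩ := entries b c h hρ hc
  obtain ⟨hw1, hw2⟩ := weyl_entries b c h hρ hc
  -- the group `P` preserves the flag
  have pP : ∀ p ∈ P, ∀ A : Set ℝ, IsUpperSet A → ∀ v ∈ EA b c A, ρ p v ∈ EA b c A := by
    intro p hp A hA v hv
    obtain ⟨s, h1, -⟩ := hN p hp
    refine map_EA b c (ρ p : E →ₗ[ℝ] E) (fun i j hj hi => ?_) hv
    refine h1 i j ?_
    by_contra h2
    exact hi (hA (not_lt.1 h2) hj)
  have wU : ∀ A B : Set ℝ, (∀ x ∈ A, ∀ y, y ∉ B → 0 < y + x) → ∀ v ∈ EA b c A,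
      ρ w v ∈ EA b c B := by
    intro A B hAB v hv
    exact map_EA b c (ρ w : E →ₗ[ℝ] E) (fun i j hj hi => hw1 i j (hAB _ hj _ hi)) hv
  have wL : ∀ A B : Set ℝ, (∀ x ∈ A, ∀ y, y ∉ B → y + x < 0) → ∀ v ∈ EA b c A,
      ρ w⁻¹ v ∈ EA b c B := by
    intro A B hAB v hv
    exact map_EA b c (ρ w⁻¹ : E →ₗ[ℝ] E) (fun i j hj hi => hw2 i j (hAB _ hj _ hi)) hv
  have b_mem : ∀ (j : ι) (A : Set ℝ), c j ∈ A → b j ∈ EA b c A := by
    intro j A hj i hi
    rw [Module.Basis.coord_apply, Module.Basis.repr_self, Finsupp.single_apply, if_neg]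
    rintro rfl
    exact hi hj
  have b_not : ∀ (j : ι) (A : Set ℝ), c j ∉ A → b j ∉ EA b c A := by
    intro j A hj h1
    have h2 := h1 j hj
    rw [Module.Basis.coord_apply, Module.Basis.repr_self, Finsupp.single_eq_same] at h2
    exact one_ne_zero h2
  have cancel : ∀ (g : G) (v : E), ρ g (ρ g⁻¹ v) = v := by
    intro g v
    rw [← LinearEquiv.mul_apply, ← map_mul, mul_inv_cancel, map_one]
    rfl
  have cancel' : ∀ (g : G) (v : E), ρ g⁻¹ (ρ g v) = v := by
    intro g v
    rw [← LinearEquiv.mul_apply, ← map_mul, inv_mul_cancel, map_one]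
    rfl
  -- block diagonal
  have diag : ∀ g ∈ P, w⁻¹ * g * w ∈ P → ∀ i j, c i ≠ c j → b.coord i (ρ g (b j)) = 0 := by
    intro g hg hg' i j hij
    rcases lt_or_gt_of_ne hij with h1 | h1
    · obtain ⟨s, h2, -⟩ := hN g hg
      exact h2 i j h1
    · have h2 : ρ w⁻¹ (b j) ∈ EA b c (Set.Ici (-c j)) := by
        refine wL (Set.Iic (c j)) _ (fun x hx y hy => ?_) _ (b_mem j _ (Set.mem_Iic.2 le_rfl))
        have := Set.mem_Iic.1 hx
        have := not_le.1 (fun h => hy (Set.mem_Ici.2 h))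
        linarith
      have h3 := pP _ hg' _ (isUpperSet_Ici _) _ h2
      have h4 := wU _ (Set.Iic (c j)) (fun x hx y hy => by
        have := Set.mem_Ici.1 hx
        have := not_le.1 (fun h => hy (Set.mem_Iic.2 h))
        linarith) _ h3
      have h5 : ρ w (ρ (w⁻¹ * g * w) (ρ w⁻¹ (b j))) = ρ g (b j) := by
        rw [← LinearEquiv.mul_apply, ← map_mul, ← LinearEquiv.mul_apply, ← map_mul]
        congr 2
        group
      rw [h5] at h4
      exact h4 i (fun h => absurd (Set.mem_Iic.1 h) (not_le.2 h1))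
  -- it is enough to bound `s`
  have fin : ∀ B : ℝ, (∀ g ∈ P, w⁻¹ * g * w ∈ P → u⁻¹ * g * u ∈ P → ∀ s : ℝ,
      (∀ i j : ι, c i = c j → |b.coord i (ρ g (b j))| ≤ N * Real.exp (c i * s) ∧
        |b.coord i (ρ g⁻¹ (b j))| ≤ N * (Real.exp (c i * s))⁻¹) → ∀ i, c i * s ≤ B) →
      ∃ C : ℝ, 0 ≤ C ∧ ∀ g ∈ P, w⁻¹ * g * w ∈ P → u⁻¹ * g * u ∈ P → ∀ i j : ι,
        |b.coord i (ρ g (b j))| ≤ C := by
    intro B hB
    refine ⟨N * Real.exp B, by positivity, fun g hg hg1 hg2 i j => ?_⟩
    by_cases hij : c i = c j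
    · obtain ⟨s, -, h2⟩ := hN g hg
      refine ((h2 i j hij).1).trans ?_
      exact mul_le_mul_of_nonneg_left (Real.exp_le_exp.2 (hB g hg hg1 hg2 s h2 i)) hN0
    · rw [diag g hg hg1 i j hij, abs_zero]
      positivity
  obtain ⟨p1, hp1, p2, hp2, hu1⟩ := (h.bruhat u).resolve_left hu
  obtain ⟨p3, hp3, p4, hp4, hu2⟩ := (h.bruhat (w⁻¹ * u)).resolve_left hu'
  by_cases hneg : ∃ j0, c j0 < 0
  · obtain ⟨j0, hj0⟩ := hneg
    -- the plate of `u`
    let R : Submodule ℝ E := (EA b c (Set.Ici 0)).comap (ρ u⁻¹ : E →ₗ[ℝ] E)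
    have memR : ∀ x, x ∈ R ↔ ρ u⁻¹ x ∈ EA b c (Set.Ici 0) := fun x => Iff.rfl
    obtain ⟨D, hD0, hD⟩ := control b c R (by
      intro x hx hx'
      rw [memR] at hx
      have h1 : ρ p4 (ρ u⁻¹ x) ∈ EA b c (Set.Ici 0) := pP _ hp4 _ (isUpperSet_Ici _) _ hx
      have h2 := wU _ (Set.Iic 0) (fun x hx y hy => by
        have := Set.mem_Ici.1 hx
        have := not_le.1 (fun h => hy (Set.mem_Iic.2 h))
        linarith) _ h1
      have h3 : ρ w⁻¹ x ∈ EA b c (Set.Ioi 0) := by
        refine wL _ _ (fun x hx y hy => ?_) _ hx'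
        have := Set.mem_Iio.1 hx
        have := not_lt.1 (fun h => hy (Set.mem_Ioi.2 h))
        linarith
      have h4 := pP _ (inv_mem hp3) _ (isUpperSet_Ioi _) _ h3
      have h5 : ρ p3⁻¹ (ρ w⁻¹ x) = ρ w (ρ p4 (ρ u⁻¹ x)) := by
        have h6 : u = w * (p3 * w * p4) := by
          rw [← hu2]
          group
        rw [← LinearEquiv.mul_apply, ← map_mul, ← LinearEquiv.mul_apply, ← map_mul,
          ← LinearEquiv.mul_apply, ← map_mul, h6]
        congr 2
        group
      rw [h5] at h4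
      have h6 : ρ w (ρ p4 (ρ u⁻¹ x)) = 0 := by
        apply b.ext_elem
        intro i
        rw [map_zero]
        by_cases h7 : 0 < c i
        · exact h2 i (fun h => absurd (Set.mem_Iic.1 h) (not_le.2 h7))
        · exact h4 i (fun h => h7 (Set.mem_Ioi.1 h))
      have h7 := (LinearEquiv.map_eq_zero_iff _).1 h6
      have h8 := (LinearEquiv.map_eq_zero_iff _).1 h7
      exact (LinearEquiv.map_eq_zero_iff _).1 h8)
    -- a vector of the plate with a component of negative weight
    obtain ⟨v, hvR, i0, hi0, hv0⟩ : ∃ v ∈ R, ∃ i0, c i0 < 0 ∧ b.coord i0 v ≠ 0 := by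
      refine ⟨ρ p1 (b j0), ?_, ?_⟩
      · rw [memR]
        have h1 : ρ w⁻¹ (b j0) ∈ EA b c (Set.Ici 0) := by
          refine wL (Set.Iic 0) _ (fun x hx y hy => ?_) _ (b_mem j0 _ (Set.mem_Iic.2 hj0.le))
          have := Set.mem_Iic.1 hx
          have := not_le.1 (fun h => hy (Set.mem_Ici.2 h))
          linarith
        have h2 := pP _ (inv_mem hp2) _ (isUpperSet_Ici _) _ h1
        have h3 : ρ u⁻¹ (ρ p1 (b j0)) = ρ p2⁻¹ (ρ w⁻¹ (b j0)) := by
          rw [← LinearEquiv.mul_apply, ← map_mul, ← LinearEquiv.mul_apply, ← map_mul, hu1]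
          congr 2
          group
        rw [h3]
        exact h2
      · by_contra hcon
        push Not at hcon
        have h1 : ρ p1 (b j0) ∈ EA b c (Set.Ici 0) := by
          intro i hi
          exact hcon i (not_le.1 (fun h => hi (Set.mem_Ici.2 h)))
        have h2 := pP _ (inv_mem hp1) _ (isUpperSet_Ici _) _ h1
        rw [cancel'] at h2
        exact b_not j0 _ (fun h => absurd (Set.mem_Ici.1 h) (not_le.2 hj0)) h2
    -- the estimate
    set Y : ℝ := ∑ l, |b.coord l v| with hY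
    have hY0 : 0 ≤ Y := by positivity
    have main : ∀ g ∈ P, w⁻¹ * g * w ∈ P → u⁻¹ * g * u ∈ P → ∀ s : ℝ, s ≤ 0 →
        (∀ i j : ι, c i = c j → |b.coord i (ρ g (b j))| ≤ N * Real.exp (c i * s)) →
        (∀ i j : ι, c i = c j → |b.coord i (ρ g⁻¹ (b j))| ≤ N * (Real.exp (c i * s))⁻¹) →
        |b.coord i0 v| ≤ (Fintype.card ι * (D * (Fintype.card ι * (Y * N))) * N) *
          Real.exp (-(c i0 * s)) := by
      intro g hg hg1 hg2 s hs h1 h2
      have h3 : ρ g v ∈ R := by
        rw [memR] at hvR ⊢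
        have h4 := pP _ hg2 _ (isUpperSet_Ici _) _ hvR
        have h5 : ρ (u⁻¹ * g * u) (ρ u⁻¹ v) = ρ u⁻¹ (ρ g v) := by
          rw [← LinearEquiv.mul_apply, ← map_mul, ← LinearEquiv.mul_apply, ← map_mul]
          congr 2
          group
        rwa [h5] at h4
      have h4 : ∀ j, 0 ≤ c j → |b.coord j (ρ g v)| ≤ Y * N := by
        intro j hj
        have e0 := expand b (ρ g : E →ₗ[ℝ] E) v j
        simp only [LinearEquiv.coe_coe] at e0
        rw [e0]
        refine (Finset.abs_sum_le_sum_abs _ _).trans ?_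
        rw [hY, Finset.sum_mul]
        refine Finset.sum_le_sum fun l _ => ?_
        rw [abs_mul]
        refine mul_le_mul_of_nonneg_left ?_ (abs_nonneg _)
        by_cases hjl : c j = c l
        · refine (h1 j l hjl).trans ?_
          have : Real.exp (c j * s) ≤ 1 := Real.exp_le_one_iff.2 (mul_nonpos_of_nonneg_of_nonpos hj hs)
          nlinarith
        · rw [diag g hg hg1 j l hjl, abs_zero]
          exact hN0
      have h5 : ∀ l, |b.coord l (ρ g v)| ≤ D * (Fintype.card ι * (Y * N)) := by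
        intro l
        refine (hD _ h3 l).trans (mul_le_mul_of_nonneg_left ?_ hD0)
        calc (∑ j, if 0 ≤ c j then |b.coord j (ρ g v)| else 0) ≤ ∑ _j : ι, Y * N := by
              refine Finset.sum_le_sum fun j _ => ?_
              split_ifs with h6
              · exact h4 j h6
              · positivity
          _ = Fintype.card ι * (Y * N) := by
              rw [Finset.sum_const, nsmul_eq_mul, Finset.card_univ]
      have hg' : g⁻¹ ∈ P := inv_mem hg
      have hg1' : w⁻¹ * g⁻¹ * w ∈ P := by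
        have := inv_mem hg1
        rwa [show (w⁻¹ * g * w)⁻¹ = w⁻¹ * g⁻¹ * w by group] at this
      have e0 := expand b (ρ g⁻¹ : E →ₗ[ℝ] E) (ρ g v) i0
      simp only [LinearEquiv.coe_coe] at e0
      rw [cancel'] at e0
      rw [e0]
      calc |∑ l, b.coord l (ρ g v) * b.coord i0 (ρ g⁻¹ (b l))| ≤
          ∑ l, |b.coord l (ρ g v) * b.coord i0 (ρ g⁻¹ (b l))| := Finset.abs_sum_le_sum_abs _ _
        _ ≤ ∑ _l : ι, (D * (Fintype.card ι * (Y * N))) * (N * Real.exp (-(c i0 * s))) := by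
            refine Finset.sum_le_sum fun l _ => ?_
            rw [abs_mul]
            refine mul_le_mul (h5 l) ?_ (abs_nonneg _) (by positivity)
            by_cases hil : c i0 = c l
            · have := h2 i0 l hil
              rwa [← Real.exp_neg] at this
            · rw [diag _ hg' hg1' i0 l hil, abs_zero]
              positivity
        _ = _ := by
            rw [Finset.sum_const, nsmul_eq_mul, Finset.card_univ]
            ring
    set Z : ℝ := Fintype.card ι * (D * (Fintype.card ι * (Y * N))) * N with hZ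
    have hZ0 : 0 ≤ Z := by positivity
    have hpos : 0 < |b.coord i0 v| := abs_pos.2 hv0
    have main2 : ∀ s : ℝ, s ≤ 0 → |b.coord i0 v| ≤ Z * Real.exp (-(c i0 * s)) →
        -s * -c i0 ≤ Real.log (Z / |b.coord i0 v|) := by
      intro s hs h1
      have hZpos : 0 < Z := by
        rcases hZ0.lt_or_eq with h2 | h2
        · exact h2
        · rw [← h2, zero_mul] at h1
          linarith
      have h2 : Real.exp (-s * -c i0) ≤ Z / |b.coord i0 v| := by
        rw [le_div_iff₀ hpos]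
        calc Real.exp (-s * -c i0) * |b.coord i0 v| ≤
            Real.exp (-s * -c i0) * (Z * Real.exp (-(c i0 * s))) :=
              mul_le_mul_of_nonneg_left h1 (Real.exp_pos _).le
          _ = Z * (Real.exp (-s * -c i0) * Real.exp (-(c i0 * s))) := by ring
          _ = Z := by
              rw [← Real.exp_add, show -s * -c i0 + -(c i0 * s) = 0 by ring, Real.exp_zero, mul_one]
      have h3 := Real.log_le_log (Real.exp_pos _) h2
      rwa [Real.log_exp] at h3
    set L : ℝ := Real.log (Z / |b.coord i0 v|) with hL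
    set B : ℝ := |L| / (-c i0) with hB
    have hB0 : 0 ≤ B := div_nonneg (abs_nonneg _) (by linarith)
    set X : ℝ := ∑ l, |c l| with hX
    refine fin (X * B) fun g hg hg1 hg2 s hs i => ?_
    have hsB : |s| ≤ B := by
      rw [hB, le_div_iff₀ (by linarith)]
      rcases le_total s 0 with hs0 | hs0
      · have h1 := main2 s hs0 (main g hg hg1 hg2 s hs0 (fun i j hij => (hs i j hij).1)
          fun i j hij => (hs i j hij).2)
        rw [abs_of_nonpos hs0]
        exact h1.trans (le_abs_self _)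
      · have hg' : g⁻¹ ∈ P := inv_mem hg
        have hg1' : w⁻¹ * g⁻¹ * w ∈ P := by
          have := inv_mem hg1
          rwa [show (w⁻¹ * g * w)⁻¹ = w⁻¹ * g⁻¹ * w by group] at this
        have hg2' : u⁻¹ * g⁻¹ * u ∈ P := by
          have := inv_mem hg2
          rwa [show (u⁻¹ * g * u)⁻¹ = u⁻¹ * g⁻¹ * u by group] at this
        have h1 := main2 (-s) (by linarith) (main g⁻¹ hg' hg1' hg2' (-s) (by linarith)
          (fun i j hij => by
            have := (hs i j hij).2
            rwa [← Real.exp_neg, show -(c i * s) = c i * -s by ring] at this)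
          (fun i j hij => by
            have := (hs i j hij).1
            rwa [inv_inv, ← Real.exp_neg, show -(c i * -s) = c i * s by ring]))
        rw [neg_neg] at h1
        rw [abs_of_nonneg hs0]
        exact h1.trans (le_abs_self _)
    have hci : |c i| ≤ X := Finset.single_le_sum (f := fun l => |c l|) (fun _ _ => abs_nonneg _)
      (Finset.mem_univ i)
    calc c i * s ≤ |c i * s| := le_abs_self _
      _ = |c i| * |s| := abs_mul _ _
      _ ≤ X * B := mul_le_mul hci hsB (abs_nonneg _) (by positivity)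
  · -- all weights are zero
    push Not at hneg
    refine fin 0 fun g _ _ _ s _ i => ?_
    have h1 : c i = 0 := by
      by_contra hne
      have hpos : 0 < c i := lt_of_le_of_ne (hneg i) (Ne.symm hne)
      have h2 : ρ w (b i) ∈ EA b c (Set.Iio 0) := by
        refine wU (Set.Ioi 0) _ (fun x hx y hy => ?_) _ (b_mem i _ (Set.mem_Ioi.2 hpos))
        have := Set.mem_Ioi.1 hx
        have := not_lt.1 (fun h => hy (Set.mem_Iio.2 h))
        linarith
      have h3 : ρ w (b i) = 0 := by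
        apply b.ext_elem
        intro j
        rw [map_zero]
        exact h2 j (fun h => absurd (Set.mem_Iio.1 h) (not_lt.2 (hneg j)))
      have h4 := (LinearEquiv.map_eq_zero_iff _).1 h3
      exact b.ne_zero i h4
    rw [h1, zero_mul]

end rep

/-- THREE -/
theorem t_three : S_THREE := by
  classical
  intro G _ _ _ K P T w h E _ _ _ ρ hρ k1 k2 k3 h12 h23 h13
  obtain ⟨hcont, hspan⟩ := hρ
  obtain ⟨ι, _, b, hb⟩ : ∃ (ι : Type) (_ : Fintype ι) (b : Module.Basis ι ℝ E),
      ∀ j, ∃ c : ℝ, ∀ t : ℝ, ρ (T t) (b j) = Real.exp (c * t) • b j := by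
    have hs := hspan.ge
    let b := Module.Basis.ofSpan hs
    have hf := Module.Finite.finite_basis b
    refine ⟨_, Fintype.ofFinite _, b, fun j => ?_⟩
    exact Module.Basis.ofSpan_subset hs ⟨j, rfl⟩
  choose c hc using hb
  obtain ⟨p, hp, q, hq, hpq⟩ := (h.bruhat (k1⁻¹ * k2)).resolve_left h12
  set a : G := k1 * p with ha
  set u : G := a⁻¹ * k3 with hu
  have hk2 : k2 = a * w * q := by
    rw [ha, mul_assoc k1, mul_assoc k1, ← hpq]
    group
  have hk3 : k3 = a * u := by
    rw [hu]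
    group
  have hu1 : u ∉ P := by
    intro h1
    apply h13
    have : k1⁻¹ * k3 = p * u := by
      rw [hk3, ha]
      group
    rw [this]
    exact mul_mem hp h1
  have hu2 : w⁻¹ * u ∉ P := by
    intro h1
    apply h23
    have : k2⁻¹ * k3 = q⁻¹ * (w⁻¹ * u) := by
      rw [hk2, hk3]
      group
    rw [this]
    exact mul_mem (inv_mem hq) h1
  obtain ⟨C, hC0, hC⟩ := key b c h hcont hc hu1 hu2
  set X : ℝ := ∑ l, ‖LinearMap.toContinuousLinearMap (b.coord l)‖ with hX
  set B : ℝ := ∑ l, ‖b l‖ with hB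
  have hX0 : 0 ≤ X := by positivity
  have hB0 : 0 ≤ B := by positivity
  set n1 : ℝ := ‖LinearMap.toContinuousLinearMap (ρ a : E →ₗ[ℝ] E)‖ with hn1
  set n2 : ℝ := ‖LinearMap.toContinuousLinearMap (ρ a⁻¹ : E →ₗ[ℝ] E)‖ with hn2
  have hb1 : ∀ v, ‖ρ a v‖ ≤ n1 * ‖v‖ := fun v =>
    (LinearMap.toContinuousLinearMap (ρ a : E →ₗ[ℝ] E)).le_opNorm v
  have hb2 : ∀ v, ‖ρ a⁻¹ v‖ ≤ n2 * ‖v‖ := fun v =>
    (LinearMap.toContinuousLinearMap (ρ a⁻¹ : E →ₗ[ℝ] E)).le_opNorm v
  have hn1' : 0 ≤ n1 := norm_nonneg _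
  refine ⟨n1 * (X * C * B) * n2, fun g hg1 hg2 hg3 v => ?_⟩
  set g' : G := a⁻¹ * g * a with hg'
  have e1 : g' ∈ P := by
    have : g' = p⁻¹ * (k1⁻¹ * g * k1) * p := by
      rw [hg', ha]
      group
    rw [this]
    exact mul_mem (mul_mem (inv_mem hp) hg1) hp
  have e2 : w⁻¹ * g' * w ∈ P := by
    have : w⁻¹ * g' * w = q * (k2⁻¹ * g * k2) * q⁻¹ := by
      rw [hg', hk2]
      group
    rw [this]
    exact mul_mem (mul_mem hq hg2) (inv_mem hq)
  have e3 : u⁻¹ * g' * u ∈ P := by
    have : u⁻¹ * g' * u = k3⁻¹ * g * k3 := by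
      rw [hg', hu]
      group
    rw [this]
    exact hg3
  have e4 := hC g' e1 e2 e3
  have e5 : ∀ y, ‖ρ g' y‖ ≤ X * C * B * ‖y‖ := by
    intro y
    have f1 : ρ g' y = ∑ i, b.coord i (ρ g' y) • b i := (b.sum_repr (ρ g' y)).symm
    have f2 : ∀ i, |b.coord i (ρ g' y)| ≤ X * C * ‖y‖ := by
      intro i
      have e0 := expand b (ρ g' : E →ₗ[ℝ] E) y i
      simp only [LinearEquiv.coe_coe] at e0
      rw [e0]
      refine (Finset.abs_sum_le_sum_abs _ _).trans ?_
      rw [hX, Finset.sum_mul, Finset.sum_mul]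
      refine Finset.sum_le_sum fun l _ => ?_
      rw [abs_mul]
      have f3 : |b.coord l y| ≤ ‖LinearMap.toContinuousLinearMap (b.coord l)‖ * ‖y‖ :=
        (LinearMap.toContinuousLinearMap (b.coord l)).le_opNorm y
      calc |b.coord l y| * |b.coord i (ρ g' (b l))| ≤
          (‖LinearMap.toContinuousLinearMap (b.coord l)‖ * ‖y‖) * C :=
            mul_le_mul f3 (e4 i l) (abs_nonneg _) (by positivity)
        _ = _ := by ring
    rw [f1]
    refine (norm_sum_le _ _).trans ?_
    calc ∑ i, ‖b.coord i (ρ g' y) • b i‖ ≤ ∑ i, X * C * ‖y‖ * ‖b i‖ := by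
          refine Finset.sum_le_sum fun i _ => ?_
          rw [norm_smul, Real.norm_eq_abs]
          exact mul_le_mul_of_nonneg_right (f2 i) (norm_nonneg _)
      _ = X * C * B * ‖y‖ := by
          rw [← Finset.mul_sum]
          ring
  have e6 : ρ g v = ρ a (ρ g' (ρ a⁻¹ v)) := by
    rw [← LinearEquiv.mul_apply, ← map_mul, ← LinearEquiv.mul_apply, ← map_mul]
    congr 2
    rw [hg']
    group
  rw [e6]
  calc ‖ρ a (ρ g' (ρ a⁻¹ v))‖ ≤ n1 * ‖ρ g' (ρ a⁻¹ v)‖ := hb1 _
    _ ≤ n1 * (X * C * B * ‖ρ a⁻¹ v‖) := mul_le_mul_of_nonneg_left (e5 _) hn1'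
    _ ≤ n1 * (X * C * B * (n2 * ‖v‖)) :=
        mul_le_mul_of_nonneg_left (mul_le_mul_of_nonneg_left (hb2 _) (by positivity)) hn1'
    _ = _ := by ring

end Pool.Agent.N413.RO.Three
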