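import Pool.Agent.N520.RO.Stm

/-!
# Project RO (helper520), S_TRIB: groups of triangular operators are solvable (helper413)

Let `c 0 = 0 ≤ c 1 ≤ … ≤ c l = W` be the chain. `S k` is the group of the operators which preserve
the chain and satisfy `(u - 1) (c j) ⊆ c (j - k)`. Then `[S 0, S 0] ≤ S 1` (the quotients
`c (j + 1) / c j` are of dimension at most one), `[S k, S k] ≤ S (k + 1)` for `k ≥ 1` and
`S l = 1`.
-/

set_option autoImplicit false

open Set
open scoped commutatorElement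
open Pool.Agent.Y449.MS Pool.Agent.N520.RO

namespace Pool.Agent.N413.RO.Trib

variable {W : Type} [AddCommGroup W] [Module ℂ W]

/-- the operators which preserve the chain and are equal to the identity up to `k` steps -/
def S (c : ℕ → Submodule ℂ W) (k : ℕ) : Subgroup (W ≃ₗ[ℂ] W) where
  carrier := {u | (∀ j, ∀ w ∈ c j, u w ∈ c j) ∧ (∀ j, ∀ w ∈ c j, u⁻¹ w ∈ c j) ∧
    ∀ j, ∀ w ∈ c j, u w - w ∈ c (j - k)}
  mul_mem' := by
    rintro u v ⟨h1, h2, h3⟩ ⟨g1, g2, g3⟩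
    refine ⟨fun j w hw => h1 j _ (g1 j w hw), fun j w hw => ?_, fun j w hw => ?_⟩
    · rw [mul_inv_rev]
      exact g2 j _ (h2 j w hw)
    · have e : (u * v) w - w = u (v w - w) + (u w - w) := by
        rw [map_sub]
        show u (v w) - w = _
        abel
      rw [e]
      exact Submodule.add_mem _ (h1 _ _ (g3 j w hw)) (h3 j w hw)
  one_mem' := by
    refine ⟨fun j w hw => hw, fun j w hw => ?_, fun j w hw => ?_⟩
    · rw [inv_one]
      exact hw
    · show w - w ∈ _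
      rw [sub_self]
      exact Submodule.zero_mem _
  inv_mem' := by
    rintro u ⟨h1, h2, h3⟩
    refine ⟨h2, fun j w hw => ?_, fun j w hw => ?_⟩
    · rw [inv_inv]
      exact h1 j w hw
    · have e : u⁻¹ w - w = -(u⁻¹ (u w - w)) := by
        rw [map_sub]
        have : u⁻¹ (u w) = w := u.symm_apply_apply w
        rw [this]
        abel
      rw [e]
      exact Submodule.neg_mem _ (h2 _ _ (h3 j w hw))

variable {c : ℕ → Submodule ℂ W}

lemma comm_eq (u v : W ≃ₗ[ℂ] W) (w : W) :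
    ⁅u, v⁆ w - w = u (v (u⁻¹ (v⁻¹ w))) - v (u (u⁻¹ (v⁻¹ w))) := by
  have h1 : u (u⁻¹ (v⁻¹ w)) = v⁻¹ w := u.apply_symm_apply _
  have h2 : v (v⁻¹ w) = w := v.apply_symm_apply _
  rw [h1, h2]
  rfl

lemma mono (hc : ∀ j, ∃ v, c (j + 1) = c j ⊔ Submodule.span ℂ {v}) : Monotone c :=
  monotone_nat_of_le_succ fun j => by
    obtain ⟨v, hv⟩ := hc j
    rw [hv]
    exact le_sup_left

lemma S_zero (h0 : c 0 = ⊥) (hc : ∀ j, ∃ v, c (j + 1) = c j ⊔ Submodule.span ℂ {v}) :
    ⁅S c 0, S c 0⁆ ≤ S c 1 := by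
  rw [Subgroup.commutator_le]
  intro u hu v hv
  have huv : ⁅u, v⁆ ∈ S c 0 :=
    (S c 0).mul_mem ((S c 0).mul_mem ((S c 0).mul_mem hu hv) ((S c 0).inv_mem hu))
      ((S c 0).inv_mem hv)
  refine ⟨huv.1, huv.2.1, fun j w hw => ?_⟩
  rw [comm_eq]
  have hw' : u⁻¹ (v⁻¹ w) ∈ c j := hu.2.1 j _ (hv.2.1 j w hw)
  generalize u⁻¹ (v⁻¹ w) = z at hw'
  rcases j with _ | j
  · rw [h0, Submodule.mem_bot] at hw'
    rw [hw', map_zero, map_zero, map_zero, sub_zero]
    exact Submodule.zero_mem _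
  · rw [Nat.add_sub_cancel]
    obtain ⟨e, he⟩ := hc j
    have hee : e ∈ c (j + 1) := by
      rw [he]
      exact Submodule.mem_sup_right (Submodule.mem_span_singleton_self e)
    have key : ∀ y ∈ c (j + 1), ∃ x ∈ c j, ∃ a : ℂ, y = x + a • e := by
      intro y hy
      rw [he, Submodule.mem_sup] at hy
      obtain ⟨x, hx, s, hs, rfl⟩ := hy
      obtain ⟨a, rfl⟩ := Submodule.mem_span_singleton.1 hs
      exact ⟨x, hx, a, rfl⟩
    obtain ⟨x, hx, a, rfl⟩ := key z hw'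
    obtain ⟨x1, hx1, a1, h1⟩ := key _ (hu.1 _ _ hee)
    obtain ⟨x2, hx2, a2, h2⟩ := key _ (hv.1 _ _ hee)
    have e1 : u (v (x + a • e)) - v (u (x + a • e)) =
        (u (v x) - v (u x)) + a • (u x2 + a2 • x1 - (v x1 + a1 • x2)) := by
      rw [map_add, map_add, map_add, map_add, map_smul, map_smul, map_smul, map_smul, h1, h2,
        map_add, map_add, map_smul, map_smul, h1, h2]
      module
    rw [e1]
    refine Submodule.add_mem _ (Submodule.sub_mem _ (hu.1 _ _ (hv.1 _ _ hx))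
      (hv.1 _ _ (hu.1 _ _ hx))) (Submodule.smul_mem _ _ (Submodule.sub_mem _
        (Submodule.add_mem _ (hu.1 _ _ hx2) (Submodule.smul_mem _ _ hx1))
        (Submodule.add_mem _ (hv.1 _ _ hx1) (Submodule.smul_mem _ _ hx2))))

lemma S_succ (hm : Monotone c) (k : ℕ) (hk : 1 ≤ k) : ⁅S c k, S c k⁆ ≤ S c (k + 1) := by
  rw [Subgroup.commutator_le]
  intro u hu v hv
  have huv : ⁅u, v⁆ ∈ S c k :=
    (S c k).mul_mem ((S c k).mul_mem ((S c k).mul_mem hu hv) ((S c k).inv_mem hu))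
      ((S c k).inv_mem hv)
  refine ⟨huv.1, huv.2.1, fun j w hw => ?_⟩
  rw [comm_eq]
  have hw' : u⁻¹ (v⁻¹ w) ∈ c j := hu.2.1 j _ (hv.2.1 j w hw)
  generalize u⁻¹ (v⁻¹ w) = z at hw'
  have h1 : u (v z - z) - (v z - z) ∈ c (j - k - k) := hu.2.2 _ _ (hv.2.2 _ _ hw')
  have h2 : v (u z - z) - (u z - z) ∈ c (j - k - k) := hv.2.2 _ _ (hu.2.2 _ _ hw')
  have e : u (v z) - v (u z) = (u (v z - z) - (v z - z)) - (v (u z - z) - (u z - z)) := by
    rw [map_sub, map_sub]
    abel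
  rw [e]
  exact hm (by omega) (Submodule.sub_mem _ h1 h2)

/-- **RO, S_TRIB.** -/
theorem t_trib : S_TRIB := by
  intro W _ _ _ Λ _ ρ X
  rintro ⟨l, c, h0, hl, hinv, hc⟩
  have hm := mono hc
  have hM : (Subgroup.closure X).map ρ ≤ S c 0 := by
    rw [Subgroup.map_le_iff_le_comap, Subgroup.closure_le]
    intro x hx
    have hx1 : ∀ j, ∀ w ∈ c j, ρ x w ∈ c j := fun j w hw => hinv j ⟨x, hx⟩ w hw
    refine ⟨hx1, fun j w hw => ?_, fun j w hw => Submodule.sub_mem _ (hx1 j w hw) hw⟩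
    have h2 : (c j).map (ρ x : W →ₗ[ℂ] W) = c j := by
      refine Submodule.eq_of_le_of_finrank_eq ?_ (LinearEquiv.finrank_map_eq (ρ x) (c j))
      rintro _ ⟨y, hy, rfl⟩
      exact hx1 j y hy
    rw [← h2] at hw
    obtain ⟨y, hy, rfl⟩ := hw
    have h3 : (ρ x)⁻¹ ((ρ x : W →ₗ[ℂ] W) y) = y := (ρ x).symm_apply_apply y
    rw [h3]
    exact hy
  have hd : ∀ n, (derivedSeries ((Subgroup.closure X).map ρ) n).map
      ((Subgroup.closure X).map ρ).subtype ≤ S c n := by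
    intro n
    induction n with
    | zero =>
      rw [derivedSeries_zero]
      rintro _ ⟨y, -, rfl⟩
      exact hM y.2
    | succ n ih =>
      rw [derivedSeries_succ, Subgroup.map_commutator]
      refine (Subgroup.commutator_mono ih ih).trans ?_
      rcases n with _ | n
      · exact S_zero h0 hc
      · exact S_succ hm _ (by omega)
  rw [Group.isSolvable_def]
  refine ⟨l, ?_⟩
  rw [eq_bot_iff]
  intro y hy
  have h4 : (y : W ≃ₗ[ℂ] W) ∈ S c l := hd l ⟨y, hy, rfl⟩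
  rw [Subgroup.mem_bot]
  refine Subtype.ext (LinearEquiv.ext fun w => ?_)
  have h5 := h4.2.2 l w (by rw [hl]; exact Submodule.mem_top)
  rw [Nat.sub_self, h0, Submodule.mem_bot, sub_eq_zero] at h5
  exact h5

end Pool.Agent.N413.RO.Trib
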